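import Mathlib

/-!
# Algebraic connectivity of digraphs, and a family of balanced digraphs
-/

set_option autoImplicit false

namespace Pool.Agent.Q167.Spread

open Finset Matrix
open scoped Classical

/-- A finite simple (unweighted, loopless) digraph on the vertex set `Fin n`. -/
structure Dig (n : ℕ) where
  /-- `arc i j` means that `(i, j)` is an arc -/
  arc : Fin n → Fin n → Prop
  irrefl : ∀ i, ¬ arc i i

namespace Dig

variable {n : ℕ}

/-- the adjacency matrix -/
noncomputable def adj (Γ : Dig n) : Matrix (Fin n) (Fin n) ℝ :=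
  fun i j => if Γ.arc i j then 1 else 0

/-- the out-degree of `i`: the number of arcs `(i, j)` -/
noncomputable def outDeg (Γ : Dig n) (i : Fin n) : ℕ := (univ.filter fun j => Γ.arc i j).card

/-- the in-degree of `i`: the number of arcs `(j, i)` -/
noncomputable def inDeg (Γ : Dig n) (i : Fin n) : ℕ := (univ.filter fun j => Γ.arc j i).card

/-- every vertex has in-degree equal to its out-degree -/
def Balanced (Γ : Dig n) : Prop := ∀ i, Γ.outDeg i = Γ.inDeg i

/-- the Laplacian `D - A`, where `D` is the diagonal matrix of the out-degrees -/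
noncomputable def lap (Γ : Dig n) : Matrix (Fin n) (Fin n) ℝ :=
  Matrix.diagonal (fun i => (Γ.outDeg i : ℝ)) - Γ.adj

/-- the complement: its arcs are the pairs `(i, j)`, `i ≠ j`, that are not arcs of `Γ` -/
def compl (Γ : Dig n) : Dig n where
  arc i j := i ≠ j ∧ ¬ Γ.arc i j
  irrefl i h := h.1 rfl

/-- the values `xᵀ L x` for real unit vectors `x` orthogonal to the all-ones vector -/
def values (Γ : Dig n) : Set ℝ :=
  {r | ∃ x : Fin n → ℝ, ∑ i, x i = 0 ∧ ∑ i, x i ^ 2 = 1 ∧ r = x ⬝ᵥ (Γ.lap *ᵥ x)}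

/-- `a` is the algebraic connectivity of `Γ`: the minimum of `xᵀ L x` over the real unit vectors
`x` orthogonal to the all-ones vector -/
def IsAlgConn (Γ : Dig n) (a : ℝ) : Prop := IsLeast Γ.values a

/-- the quadratic form of the Laplacian -/
noncomputable def quad (Γ : Dig n) (x : Fin n → ℝ) : ℝ := x ⬝ᵥ (Γ.lap *ᵥ x)

lemma outDeg_eq (Γ : Dig n) (i : Fin n) : (Γ.outDeg i : ℝ) = ∑ j, Γ.adj i j := by
  simp [outDeg, adj]

lemma inDeg_eq (Γ : Dig n) (i : Fin n) : (Γ.inDeg i : ℝ) = ∑ j, Γ.adj j i := by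
  simp [inDeg, adj]

lemma quad_eq (Γ : Dig n) (x : Fin n → ℝ) :
    Γ.quad x = ∑ i, ∑ j, Γ.adj i j * (x i ^ 2 - x i * x j) := by
  unfold quad lap
  rw [Matrix.sub_mulVec, dotProduct_sub]
  have h1 : x ⬝ᵥ (Matrix.diagonal (fun i => (Γ.outDeg i : ℝ)) *ᵥ x) =
      ∑ i, ∑ j, Γ.adj i j * x i ^ 2 := by
    simp only [dotProduct, Matrix.mulVec_diagonal, outDeg_eq]
    refine Finset.sum_congr rfl fun i _ => ?_
    rw [Finset.sum_mul, Finset.mul_sum]
    refine Finset.sum_congr rfl fun j _ => ?_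
    ring
  have h2 : x ⬝ᵥ (Γ.adj *ᵥ x) = ∑ i, ∑ j, Γ.adj i j * (x i * x j) := by
    simp only [dotProduct, Matrix.mulVec]
    refine Finset.sum_congr rfl fun i _ => ?_
    rw [Finset.mul_sum]
    refine Finset.sum_congr rfl fun j _ => ?_
    ring
  rw [h1, h2, ← Finset.sum_sub_distrib]
  refine Finset.sum_congr rfl fun i _ => ?_
  rw [← Finset.sum_sub_distrib]
  refine Finset.sum_congr rfl fun j _ => ?_
  ring

lemma quad_balanced (Γ : Dig n) (hΓ : Γ.Balanced) (x : Fin n → ℝ) :
    2 * Γ.quad x = ∑ i, ∑ j, Γ.adj i j * (x i - x j) ^ 2 := by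
  have h : ∑ i, ∑ j, Γ.adj i j * x j ^ 2 = ∑ i, ∑ j, Γ.adj i j * x i ^ 2 := by
    rw [Finset.sum_comm]
    refine Finset.sum_congr rfl fun i _ => ?_
    rw [← Finset.sum_mul, ← Finset.sum_mul, ← inDeg_eq, ← outDeg_eq, hΓ i]
  rw [quad_eq]
  have : ∑ i, ∑ j, Γ.adj i j * (x i - x j) ^ 2 =
      2 * ∑ i, ∑ j, Γ.adj i j * (x i ^ 2 - x i * x j) +
        (∑ i, ∑ j, Γ.adj i j * x j ^ 2 - ∑ i, ∑ j, Γ.adj i j * x i ^ 2) := by
    rw [Finset.mul_sum, ← Finset.sum_sub_distrib, ← Finset.sum_add_distrib]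
    refine Finset.sum_congr rfl fun i _ => ?_
    rw [Finset.mul_sum, ← Finset.sum_sub_distrib, ← Finset.sum_add_distrib]
    refine Finset.sum_congr rfl fun j _ => ?_
    ring
  rw [this, h]
  ring

lemma quad_nonneg (Γ : Dig n) (hΓ : Γ.Balanced) (x : Fin n → ℝ) : 0 ≤ Γ.quad x := by
  have h := Γ.quad_balanced hΓ x
  have h2 : 0 ≤ ∑ i, ∑ j, Γ.adj i j * (x i - x j) ^ 2 := by
    refine Finset.sum_nonneg fun i _ => Finset.sum_nonneg fun j _ => ?_
    unfold adj
    split_ifs <;> nlinarith [sq_nonneg (x i - x j)]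
  linarith

lemma quad_smul (Γ : Dig n) (c : ℝ) (x : Fin n → ℝ) :
    Γ.quad (fun i => c * x i) = c ^ 2 * Γ.quad x := by
  rw [quad_eq, quad_eq, Finset.mul_sum]
  refine Finset.sum_congr rfl fun i _ => ?_
  rw [Finset.mul_sum]
  refine Finset.sum_congr rfl fun j _ => ?_
  ring

lemma IsAlgConn.mul_le {Γ : Dig n} {a : ℝ} (ha : Γ.IsAlgConn a) (t : Fin n → ℝ)
    (ht : ∑ i, t i = 0) (hpos : 0 < ∑ i, t i ^ 2) : a * ∑ i, t i ^ 2 ≤ Γ.quad t := by
  set s : ℝ := ∑ i, t i ^ 2 with hs
  set c : ℝ := 1 / Real.sqrt s with hc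
  have hsq : c ^ 2 * s = 1 := by
    rw [hc, div_pow, one_pow, Real.sq_sqrt hpos.le]
    field_simp
  have h := ha.2 (show Γ.quad (fun i => c * t i) ∈ Γ.values from
    ⟨fun i => c * t i, by rw [← Finset.mul_sum, ht, mul_zero], by
      simp only [mul_pow]
      rw [← Finset.mul_sum, ← hs, hsq], rfl⟩)
  rw [quad_smul] at h
  calc a * s ≤ (c ^ 2 * Γ.quad t) * s := mul_le_mul_of_nonneg_right h hpos.le
    _ = (c ^ 2 * s) * Γ.quad t := by ring
    _ = Γ.quad t := by rw [hsq, one_mul]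

/-- the algebraic connectivity of a digraph on at least two vertices exists (and is unique). -/
lemma exists_isAlgConn (Γ : Dig n) (hn : 2 ≤ n) : ∃ a, Γ.IsAlgConn a := by
  set K : Set (Fin n → ℝ) := {x | ∑ i, x i = 0 ∧ ∑ i, x i ^ 2 = 1} with hK
  have hclosed : IsClosed K := by
    refine IsClosed.inter (isClosed_eq ?_ continuous_const) (isClosed_eq ?_ continuous_const)
    · exact continuous_finset_sum _ fun i _ => continuous_apply i
    · exact continuous_finset_sum _ fun i _ => (continuous_apply i).pow 2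
  have hsub : K ⊆ Set.pi Set.univ (fun _ : Fin n => Set.Icc (-1 : ℝ) 1) := by
    intro x hx i _
    have h1 : x i ^ 2 ≤ 1 := by
      rw [← hx.2]
      exact Finset.single_le_sum (f := fun i => x i ^ 2) (fun j _ => sq_nonneg _) (mem_univ i)
    exact ⟨by nlinarith, by nlinarith⟩
  have hcomp : IsCompact K :=
    (isCompact_univ_pi fun _ => isCompact_Icc).of_isClosed_subset hclosed hsub
  have hne : K.Nonempty := by
    let i0 : Fin n := ⟨0, by omega⟩
    let i1 : Fin n := ⟨1, by omega⟩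
    have h01 : i0 ≠ i1 := by
      intro h; exact absurd (congrArg Fin.val h) (by simp [i0, i1])
    refine ⟨fun i => (if i = i0 then Real.sqrt (1 / 2) else 0) -
      (if i = i1 then Real.sqrt (1 / 2) else 0), ?_, ?_⟩
    · rw [Finset.sum_sub_distrib]; simp
    · have : ∀ i : Fin n, ((if i = i0 then Real.sqrt (1 / 2) else 0) -
          (if i = i1 then Real.sqrt (1 / 2) else 0)) ^ 2 =
          (if i = i0 then (1 / 2 : ℝ) else 0) + (if i = i1 then (1 / 2 : ℝ) else 0) := by
        intro i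
        have hsq : Real.sqrt (1 / 2) ^ 2 = 1 / 2 := Real.sq_sqrt (by norm_num)
        by_cases h0 : i = i0
        · have h1 : i ≠ i1 := by rw [h0]; exact h01
          simp only [h0, if_pos, if_neg h01, sub_zero, add_zero, hsq]
        · by_cases h1 : i = i1
          · rw [if_neg h0, if_pos h1, if_neg h0, if_pos h1, zero_sub, neg_sq, hsq, zero_add]
          · simp [h0, h1]
      simp only [this, Finset.sum_add_distrib, Finset.sum_ite_eq', mem_univ, if_true]
      norm_num
  have hcont : Continuous fun x : Fin n → ℝ => Γ.quad x := by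
    simp only [quad_eq]
    refine continuous_finset_sum _ fun i _ => continuous_finset_sum _ fun j _ => ?_
    exact continuous_const.mul (((continuous_apply i).pow 2).sub
      ((continuous_apply i).mul (continuous_apply j)))
  obtain ⟨x, hx, hmin⟩ := hcomp.exists_isMinOn hne hcont.continuousOn
  refine ⟨Γ.quad x, ⟨x, hx.1, hx.2, rfl⟩, ?_⟩
  rintro r ⟨y, hy1, hy2, rfl⟩
  exact hmin ⟨hy1, hy2⟩

end Dig

end Pool.Agent.Q167.Spread
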