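import Pool.Agent.Q167.Spread.Digraph

/-!
# The balanced digraphs `fam m`

`fam m` has `m + 4` vertices: the directed 4-cycle `0 → 1 → 2 → 3 → 0`, the two arcs between `0`
and `2`, and both arcs between each of `0`, `1` and each vertex `k ≥ 4`.
-/

set_option autoImplicit false

namespace Pool.Agent.Q167.Spread

open Finset Matrix
open scoped Classical

/-- the arcs of the family, in terms of the numbers of the vertices -/
def arcN (a b : ℕ) : Prop :=
  (a = 0 ∧ b = 1) ∨ (a = 1 ∧ b = 2) ∨ (a = 2 ∧ b = 3) ∨ (a = 3 ∧ b = 0) ∨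
    (a = 0 ∧ b = 2) ∨ (a = 2 ∧ b = 0) ∨ (a ≤ 1 ∧ 4 ≤ b) ∨ (4 ≤ a ∧ b ≤ 1)

/-- the family of digraphs -/
def fam (m : ℕ) : Dig (m + 4) where
  arc i j := arcN i.val j.val
  irrefl i h := by unfold arcN at h; omega

lemma sum4 {m : ℕ} (f : Fin (m + 4) → ℝ) :
    ∑ i, f i = f 0 + f 1 + f 2 + f 3 + ∑ k : Fin m, f k.succ.succ.succ.succ := by
  rw [Fin.sum_univ_succ, Fin.sum_univ_succ, Fin.sum_univ_succ, Fin.sum_univ_succ]
  have h1 : (Fin.succ 0 : Fin (m + 4)) = 1 := rfl
  have h2 : (Fin.succ (Fin.succ 0) : Fin (m + 4)) = 2 := rfl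
  have h3 : (Fin.succ (Fin.succ (Fin.succ 0)) : Fin (m + 4)) = 3 := rfl
  rw [h1, h2, h3]
  ring

lemma ne0 (a : ℕ) : (a + 1 + 1 + 1 + 1 = 0) = False := by simp
lemma ne1 (a : ℕ) : (a + 1 + 1 + 1 + 1 = 1) = False := by simp
lemma ne2 (a : ℕ) : (a + 1 + 1 + 1 + 1 = 2) = False := eq_false (by omega)
lemma ne3 (a : ℕ) : (a + 1 + 1 + 1 + 1 = 3) = False := eq_false (by omega)
lemma le1 (a : ℕ) : (a + 1 + 1 + 1 + 1 ≤ 1) = False := eq_false (by omega)
lemma le4 (a : ℕ) : (4 ≤ a + 1 + 1 + 1 + 1) = True := eq_true (by omega)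

lemma val1 {m : ℕ} : (1 : Fin (m + 4)).val = 1 := rfl
lemma val2 {m : ℕ} : (2 : Fin (m + 4)).val = 2 := rfl
lemma val3 {m : ℕ} : (3 : Fin (m + 4)).val = 3 := rfl

/-- every vertex is one of `0, 1, 2, 3` or at least `4`. -/
lemma cases4 {m : ℕ} {P : Fin (m + 4) → Prop} (h0 : P 0) (h1 : P 1) (h2 : P 2) (h3 : P 3)
    (h4 : ∀ k : Fin m, P k.succ.succ.succ.succ) : ∀ i, P i := by
  intro i
  refine Fin.cases h0 (fun i => ?_) i
  refine Fin.cases h1 (fun i => ?_) i
  refine Fin.cases h2 (fun i => ?_) i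
  refine Fin.cases h3 (fun i => ?_) i
  exact h4 i

lemma fam_balanced (m : ℕ) : (fam m).Balanced := by
  intro i
  have key : ((fam m).outDeg i : ℝ) = ((fam m).inDeg i : ℝ) := by
    rw [Dig.outDeg_eq, Dig.inDeg_eq, sum4, sum4]
    revert i
    apply cases4 <;> try intro k
    all_goals
      simp only [Dig.adj, fam, arcN, Fin.val_succ, Fin.val_zero, val1, val2, val3, ne0, ne1, ne2, ne3,
        le1, le4]
      norm_num
  exact_mod_cast key

lemma famc_balanced (m : ℕ) : (fam m).compl.Balanced := by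
  intro i
  have h1 : ∀ j, (fam m).compl.adj i j = 1 - (if i = j then 1 else 0) - (fam m).adj i j := by
    intro j
    unfold Dig.adj Dig.compl
    by_cases hij : i = j
    · subst hij; simp [(fam m).irrefl i]
    · by_cases ha : (fam m).arc i j <;> simp [hij, ha]
  have h2 : ∀ j, (fam m).compl.adj j i = 1 - (if i = j then 1 else 0) - (fam m).adj j i := by
    intro j
    unfold Dig.adj Dig.compl
    by_cases hij : i = j
    · subst hij; simp [(fam m).irrefl i]
    · have hji : ¬ j = i := fun h => hij h.symm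
      by_cases ha : (fam m).arc j i <;> simp [hij, hji, ha]
  have key : ((fam m).compl.outDeg i : ℝ) = ((fam m).compl.inDeg i : ℝ) := by
    rw [Dig.outDeg_eq, Dig.inDeg_eq]
    simp only [h1, h2, Finset.sum_sub_distrib]
    have := fam_balanced m i
    have h3 : ((fam m).outDeg i : ℝ) = ((fam m).inDeg i : ℝ) := by exact_mod_cast this
    rw [Dig.outDeg_eq, Dig.inDeg_eq] at h3
    rw [h3]
  exact_mod_cast key

/-- the test vector for `fam m` -/
def tv (n : ℝ) (a b : ℕ) (i : ℕ) : ℝ := (if i = a then 5 * n else 0) + (if i = b then 2 * n else 0) - 7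

lemma quad_fam (m : ℕ) :
    2 * (fam m).quad (fun i => tv ((m : ℝ) + 4) 3 2 i.val) = 46 * ((m : ℝ) + 4) ^ 2 := by
  rw [Dig.quad_balanced _ (fam_balanced m)]
  simp only [sum4]
  simp only [Dig.adj, fam, arcN, Fin.val_succ, Fin.val_zero, val1, val2, val3, tv, ne0, ne1, ne2,
    ne3, le1, le4]
  norm_num
  ring

lemma quad_famc (m : ℕ) :
    2 * (fam m).compl.quad (fun i => tv ((m : ℝ) + 4) 0 1 i.val) = 46 * ((m : ℝ) + 4) ^ 2 := by
  rw [Dig.quad_balanced _ (famc_balanced m)]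
  simp only [sum4]
  simp only [Dig.adj, Dig.compl, fam, arcN, Fin.val_succ, Fin.val_zero, val1, val2, val3, tv, ne_eq,
    Fin.ext_iff, ne0, ne1, ne2, ne3, le1, le4]
  norm_num
  ring

end Pool.Agent.Q167.Spread
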