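import Pool.Agent.Q167.Spread.Family

/-!
# The balanced digraphs `fam m`, `m ≥ 10`, lie below the quartic curve
-/

set_option autoImplicit false

namespace Pool.Agent.Q167.Spread

open Finset Matrix
open scoped Classical

lemma sum_tv (m : ℕ) : (∑ i : Fin (m + 4), tv ((m : ℝ) + 4) 3 2 i.val = 0) ∧
    (∑ i : Fin (m + 4), tv ((m : ℝ) + 4) 0 1 i.val = 0) := by
  constructor <;>
  · rw [sum4]
    simp only [Fin.val_succ, Fin.val_zero, val1, val2, val3, tv, ne0, ne1, ne2, ne3]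
    norm_num
    ring

lemma sum_tv_sq (m : ℕ) :
    (∑ i : Fin (m + 4), tv ((m : ℝ) + 4) 3 2 i.val ^ 2 = 29 * ((m : ℝ) + 4) ^ 2 - 49 * ((m : ℝ) + 4)) ∧
    (∑ i : Fin (m + 4), tv ((m : ℝ) + 4) 0 1 i.val ^ 2 = 29 * ((m : ℝ) + 4) ^ 2 - 49 * ((m : ℝ) + 4)) := by
  constructor <;>
  · rw [sum4]
    simp only [Fin.val_succ, Fin.val_zero, val1, val2, val3, tv, ne0, ne1, ne2, ne3]
    norm_num
    ring

/-- upper bounds for the two algebraic connectivities -/
lemma upper (m : ℕ) (x y : ℝ) (hx : (fam m).IsAlgConn x) (hy : (fam m).compl.IsAlgConn y) :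
    x * (29 * ((m : ℝ) + 4) - 49) ≤ 23 * ((m : ℝ) + 4) ∧
      y * (29 * ((m : ℝ) + 4) - 49) ≤ 23 * ((m : ℝ) + 4) := by
  have hm : (0 : ℝ) ≤ m := Nat.cast_nonneg m
  have hpos : 0 < 29 * ((m : ℝ) + 4) ^ 2 - 49 * ((m : ℝ) + 4) := by nlinarith
  have hn : 0 < (m : ℝ) + 4 := by linarith
  have h1 := hx.mul_le (fun i => tv ((m : ℝ) + 4) 3 2 i.val) (sum_tv m).1
    (by rw [(sum_tv_sq m).1]; exact hpos)
  have h2 := hy.mul_le (fun i => tv ((m : ℝ) + 4) 0 1 i.val) (sum_tv m).2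
    (by rw [(sum_tv_sq m).2]; exact hpos)
  rw [(sum_tv_sq m).1] at h1
  rw [(sum_tv_sq m).2] at h2
  have q1 := quad_fam m
  have q2 := quad_famc m
  constructor
  · have h3 : ((m : ℝ) + 4) * (x * (29 * ((m : ℝ) + 4) - 49)) ≤ ((m : ℝ) + 4) * (23 * ((m : ℝ) + 4)) := by
      nlinarith
    exact le_of_mul_le_mul_left h3 hn
  · have h3 : ((m : ℝ) + 4) * (y * (29 * ((m : ℝ) + 4) - 49)) ≤ ((m : ℝ) + 4) * (23 * ((m : ℝ) + 4)) := by
      nlinarith
    exact le_of_mul_le_mul_left h3 hn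

/-- if the quadratic form of a balanced digraph vanishes at `x` then `x` is constant along arcs. -/
lemma eq_of_quad_eq_zero {n : ℕ} (Γ : Dig n) (hΓ : Γ.Balanced) (x : Fin n → ℝ)
    (h : Γ.quad x = 0) (i j : Fin n) (hij : Γ.arc i j) : x i = x j := by
  have h2 := Γ.quad_balanced hΓ x
  rw [h, mul_zero] at h2
  have hnn : ∀ a b, 0 ≤ Γ.adj a b * (x a - x b) ^ 2 := by
    intro a b
    unfold Dig.adj
    split_ifs <;> nlinarith [sq_nonneg (x a - x b)]
  have h3 := (Finset.sum_eq_zero_iff_of_nonneg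
    (fun a _ => Finset.sum_nonneg fun b _ => hnn a b)).1 h2.symm i (mem_univ i)
  have h4 := (Finset.sum_eq_zero_iff_of_nonneg (fun b _ => hnn i b)).1 h3 j (mem_univ j)
  unfold Dig.adj at h4
  rw [if_pos hij, one_mul] at h4
  have := pow_eq_zero_iff (two_ne_zero) |>.1 h4
  linarith

/-- the algebraic connectivity is positive as soon as all vertices are joined to one vertex by
chains of arcs -/
lemma pos_of_connected {n : ℕ} (Γ : Dig n) (hΓ : Γ.Balanced) (hn : 0 < n)
    (hc : ∀ x : Fin n → ℝ, (∀ i j, Γ.arc i j → x i = x j) → ∀ i j, x i = x j)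
    (a : ℝ) (ha : Γ.IsAlgConn a) : 0 < a := by
  obtain ⟨x, h1, h2, rfl⟩ := ha.1
  have h3 : 0 ≤ Γ.quad x := Γ.quad_nonneg hΓ x
  refine lt_of_le_of_ne h3 fun h0 => ?_
  have h4 := hc x (fun i j => eq_of_quad_eq_zero Γ hΓ x h0.symm i j)
  let i0 : Fin n := ⟨0, hn⟩
  have h5 : ∀ i, x i = x i0 := fun i => h4 i i0
  have h6 : (n : ℝ) * x i0 = 0 := by
    rw [← h1, Finset.sum_congr rfl fun i _ => h5 i]
    simp
  have h7 : x i0 = 0 := by
    rcases mul_eq_zero.1 h6 with h | h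
    · have : (0 : ℝ) < n := by exact_mod_cast hn
      linarith
    · exact h
  have h8 : ∑ i, x i ^ 2 = 0 := by
    rw [Finset.sum_congr rfl fun i _ => by rw [h5 i, h7]]
    simp
  rw [h8] at h2
  exact zero_ne_one h2

lemma fam_connected (m : ℕ) (x : Fin (m + 4) → ℝ) (h : ∀ i j, (fam m).arc i j → x i = x j) :
    ∀ i j, x i = x j := by
  have key : ∀ i, x i = x 0 := by
    have h01 : x 0 = x 1 := h _ _ (Or.inl ⟨rfl, rfl⟩)
    have h02 : x 1 = x 2 := h _ _ (Or.inr (Or.inl ⟨rfl, rfl⟩))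
    have h30 : x 3 = x 0 := h _ _ (Or.inr (Or.inr (Or.inr (Or.inl ⟨rfl, rfl⟩))))
    refine cases4 rfl h01.symm (by rw [← h02, ← h01]) h30 ?_
    intro k
    apply h
    unfold fam arcN
    simp only [Fin.val_succ, Fin.val_zero]
    omega
  intro i j
  rw [key i, key j]

lemma famc_connected (m : ℕ) (x : Fin (m + 4) → ℝ) (h : ∀ i j, (fam m).compl.arc i j → x i = x j) :
    ∀ i j, x i = x j := by
  have hh : ∀ i j : Fin (m + 4), i.val ≠ j.val → ¬ arcN i.val j.val → x i = x j := by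
    intro i j h1 h2
    exact h i j ⟨fun e => h1 (by rw [e]), h2⟩
  have key : ∀ i, x i = x 3 := by
    have h10 : x 1 = x 0 := hh _ _ (by rw [val1, Fin.val_zero]; omega)
      (by unfold arcN; rw [val1, Fin.val_zero]; omega)
    have h03 : x 0 = x 3 := hh _ _ (by rw [val3, Fin.val_zero]; omega)
      (by unfold arcN; rw [val3, Fin.val_zero]; omega)
    have h21 : x 2 = x 1 := hh _ _ (by rw [val1, val2]; omega)
      (by unfold arcN; rw [val1, val2]; omega)
    refine cases4 h03 (by rw [h10, h03]) (by rw [h21, h10, h03]) rfl ?_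
    intro k
    apply hh
    · simp only [Fin.val_succ, val3]; omega
    · unfold arcN; simp only [Fin.val_succ, val3]; omega
  intro i j
  rw [key i, key j]

/-- For every `n ≥ 14` there is a balanced digraph of order `n` whose algebraic connectivity `x` and
whose complement's algebraic connectivity `y` are strictly between `0` and `1` and lie strictly
below the quartic curve. -/
theorem main (n : ℕ) (hn : 14 ≤ n) : ∃ Γ : Dig n, Γ.Balanced ∧ ∃ x y : ℝ, Γ.IsAlgConn x ∧
    Γ.compl.IsAlgConn y ∧ 0 < x ∧ x < 1 ∧ 0 < y ∧ y < 1 ∧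
    x * y * (2 - x * y) < n * (1 - x) * (1 - y) * (n - 2 - x - y) := by
  obtain ⟨m, rfl⟩ : ∃ m, n = m + 4 := ⟨n - 4, by omega⟩
  have hm : (10 : ℝ) ≤ m := by
    have : 10 ≤ m := by omega
    exact_mod_cast this
  obtain ⟨x, hx⟩ := (fam m).exists_isAlgConn (by omega)
  obtain ⟨y, hy⟩ := (fam m).compl.exists_isAlgConn (by omega)
  have hx0 := pos_of_connected _ (fam_balanced m) (by omega) (fam_connected m) x hx
  have hy0 := pos_of_connected _ (famc_balanced m) (by omega) (famc_connected m) y hy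
  obtain ⟨ux, uy⟩ := upper m x y hx hy
  set N : ℝ := (m : ℝ) + 4 with hN
  have hN14 : 14 ≤ N := by linarith
  set D : ℝ := 29 * N - 49 with hD
  have hDpos : 0 < D := by linarith
  have hx1 : (6 * N - 49) / D ≤ 1 - x := by
    rw [div_le_iff₀ hDpos]; linarith
  have hy1 : (6 * N - 49) / D ≤ 1 - y := by
    rw [div_le_iff₀ hDpos]; linarith
  have hδ : 0 < (6 * N - 49) / D := div_pos (by linarith) hDpos
  refine ⟨fam m, fam_balanced m, x, y, hx, hy, hx0, by linarith, hy0, by linarith, ?_⟩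
  have hcast : (((m + 4 : ℕ) : ℝ)) = N := by rw [hN]; push_cast; ring
  rw [hcast]
  have h1 : x * y * (2 - x * y) ≤ 1 := by nlinarith [sq_nonneg (1 - x * y)]
  have h2 : ((6 * N - 49) / D) * ((6 * N - 49) / D) ≤ (1 - x) * (1 - y) :=
    mul_le_mul hx1 hy1 hδ.le (by linarith)
  have h3 : 1 < N * (((6 * N - 49) / D) * ((6 * N - 49) / D)) * (N - 4) := by
    have h4 : N * (((6 * N - 49) / D) * ((6 * N - 49) / D)) * (N - 4) =
        (N * (N - 4) * (6 * N - 49) ^ 2) / D ^ 2 := by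
      field_simp
    rw [h4, one_lt_div (by positivity), hD]
    nlinarith [mul_nonneg (sub_nonneg.2 hN14) (sub_nonneg.2 hN14),
      mul_nonneg (mul_nonneg (sub_nonneg.2 hN14) (sub_nonneg.2 hN14)) (sub_nonneg.2 hN14),
      mul_nonneg (mul_nonneg (sub_nonneg.2 hN14) (sub_nonneg.2 hN14))
        (mul_nonneg (sub_nonneg.2 hN14) (sub_nonneg.2 hN14))]
  calc x * y * (2 - x * y) ≤ 1 := h1
    _ < N * (((6 * N - 49) / D) * ((6 * N - 49) / D)) * (N - 4) := h3
    _ ≤ N * ((1 - x) * (1 - y)) * (N - 4) := by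
        apply mul_le_mul_of_nonneg_right _ (by linarith)
        exact mul_le_mul_of_nonneg_left h2 (by linarith)
    _ ≤ N * ((1 - x) * (1 - y)) * (N - 2 - x - y) := by
        apply mul_le_mul_of_nonneg_left (by linarith)
        apply mul_nonneg (by linarith)
        exact mul_nonneg (by linarith) (by linarith)
    _ = N * (1 - x) * (1 - y) * (N - 2 - x - y) := by ring

end Pool.Agent.Q167.Spread
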